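import Mathlib

set_option autoImplicit false

namespace Q125.GM

/-- A tournament with vertex set `V`: a loopless digraph in which every two distinct vertices are
joined by exactly one arc. -/
structure Tournament (V : Type) where
  arc : V → V → Prop
  loopless : ∀ v, ¬ arc v v
  joined : ∀ u v, u ≠ v → arc u v ∨ arc v u
  only_one : ∀ u v, arc u v → ¬ arc v u

/-- The arc set of `T`. -/
def Tournament.Arcs {V : Type} (T : Tournament V) : Type := {e : V × V // T.arc e.1 e.2}

/-- For any two vertices `u`, `v` there is a directed path from `u` to `v`. -/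
def Tournament.Strong {V : Type} (T : Tournament V) : Prop :=
  ∀ u v, Relation.ReflTransGen T.arc u v

/-- The converse tournament. -/
def Tournament.converse {V : Type} (T : Tournament V) : Tournament V where
  arc u v := T.arc v u
  loopless := T.loopless
  joined u v h := T.joined v u h.symm
  only_one u v h := T.only_one v u h

/-- `C` is the arc set of a directed cycle `v₀ → v₁ → … → v_{k-1} → v₀` on `k` distinct vertices
(`finRotate k` is the cyclic shift `i ↦ i + 1`). -/
def IsCircuit {V : Type} (T : Tournament V) (k : ℕ) (C : Set T.Arcs) : Prop :=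
  ∃ (v : Fin k → V) (h : ∀ i, T.arc (v i) (v (finRotate k i))), Function.Injective v ∧
    C = Set.range fun i => (⟨(v i, v (finRotate k i)), h i⟩ : T.Arcs)

/-- The bijection `φ` of the arc sets maps `k`-circuits into `k`-circuits. -/
def MapsCircuits {V W : Type} (T₁ : Tournament V) (T₂ : Tournament W) (φ : T₁.Arcs ≃ T₂.Arcs)
    (k : ℕ) : Prop := ∀ C : Set T₁.Arcs, IsCircuit T₁ k C → IsCircuit T₂ k (φ '' C)

/-- Isomorphism of tournaments. -/
def Isomorphic {V W : Type} (T₁ : Tournament V) (T₂ : Tournament W) : Prop :=
  ∃ e : V ≃ W, ∀ u v, T₁.arc u v ↔ T₂.arc (e u) (e v)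

end Q125.GM
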