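import Mathlib
import Pool.Agent.Q125.GM.Defs

set_option autoImplicit false

namespace Q125.GM

variable {n : ℕ}

/-- arcs `i → i + 1` and `i → j` for `j + 2 ≤ i` -/
def T₁ (n : ℕ) : Tournament (Fin n) where
  arc i j := j.val = i.val + 1 ∨ j.val + 2 ≤ i.val
  loopless v := by omega
  joined u v h := by
    have : u.val ≠ v.val := fun h' => h (Fin.ext h')
    omega
  only_one u v h := by omega

/-- `T₁ n` with the arc `4 → 0` reversed -/
def T₂ (n : ℕ) : Tournament (Fin n) where
  arc i j := ((j.val = i.val + 1 ∨ j.val + 2 ≤ i.val) ∧ ¬ (i.val = 4 ∧ j.val = 0)) ∨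
    (i.val = 0 ∧ j.val = 4)
  loopless v := by omega
  joined u v h := by
    have : u.val ≠ v.val := fun h' => h (Fin.ext h')
    omega
  only_one u v h := by omega

def swapArc (e : Fin n × Fin n) : Fin n × Fin n :=
  if (e.1.val = 4 ∧ e.2.val = 0) ∨ (e.1.val = 0 ∧ e.2.val = 4) then (e.2, e.1) else e

theorem swapArc_swapArc (e : Fin n × Fin n) : swapArc (swapArc e) = e := by
  unfold swapArc
  by_cases h : (e.1.val = 4 ∧ e.2.val = 0) ∨ (e.1.val = 0 ∧ e.2.val = 4)
  · rw [if_pos h, if_pos]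
    simp only
    omega
  · rw [if_neg h, if_neg h]

theorem swapArc_one (e : Fin n × Fin n) (h : (T₁ n).arc e.1 e.2) :
    (T₂ n).arc (swapArc e).1 (swapArc e).2 := by
  unfold swapArc
  simp only [T₁, T₂] at *
  split_ifs with h1
  · simp only
    omega
  · omega

theorem swapArc_two (e : Fin n × Fin n) (h : (T₂ n).arc e.1 e.2) :
    (T₁ n).arc (swapArc e).1 (swapArc e).2 := by
  unfold swapArc
  simp only [T₁, T₂] at *
  split_ifs with h1
  · simp only
    omega
  · omega

def φ (n : ℕ) : (T₁ n).Arcs ≃ (T₂ n).Arcs where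
  toFun e := ⟨swapArc e.1, swapArc_one _ e.2⟩
  invFun e := ⟨swapArc e.1, swapArc_two _ e.2⟩
  left_inv e := Subtype.ext (swapArc_swapArc _)
  right_inv e := Subtype.ext (swapArc_swapArc _)

theorem maps : MapsCircuits (T₁ n) (T₂ n) (φ n) 4 := by
  rintro C ⟨v, h, hv, rfl⟩
  have h0 := h 0
  have h1 := h 1
  have h2 := h 2
  have h3 := h 3
  have e0 : finRotate 4 0 = 1 := by decide
  have e1 : finRotate 4 1 = 2 := by decide
  have e2 : finRotate 4 2 = 3 := by decide
  have e3 : finRotate 4 3 = 0 := by decide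
  rw [e0] at h0
  rw [e1] at h1
  rw [e2] at h2
  rw [e3] at h3
  simp only [T₁] at h0 h1 h2 h3
  have key : ∀ i : Fin 4, ¬ ((v i).val = 4 ∧ (v (finRotate 4 i)).val = 0) := by
    intro i
    fin_cases i
    · show ¬ ((v 0).val = 4 ∧ (v (finRotate 4 0)).val = 0)
      rw [e0]; omega
    · show ¬ ((v 1).val = 4 ∧ (v (finRotate 4 1)).val = 0)
      rw [e1]; omega
    · show ¬ ((v 2).val = 4 ∧ (v (finRotate 4 2)).val = 0)
      rw [e2]; omega
    · show ¬ ((v 3).val = 4 ∧ (v (finRotate 4 3)).val = 0)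
      rw [e3]; omega
  have key2 : ∀ i : Fin 4, ¬ (((v i).val = 4 ∧ (v (finRotate 4 i)).val = 0) ∨
      ((v i).val = 0 ∧ (v (finRotate 4 i)).val = 4)) := by
    intro i
    have h4 := key i
    have h5 := h i
    simp only [T₁] at h5
    omega
  have harc : ∀ i, (T₂ n).arc (v i) (v (finRotate 4 i)) := by
    intro i
    have h4 := key i
    have h5 := h i
    simp only [T₁, T₂] at *
    omega
  have hsw : ∀ i, (φ n) ⟨(v i, v (finRotate 4 i)), h i⟩ = ⟨(v i, v (finRotate 4 i)), harc i⟩ := by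
    intro i
    apply Subtype.ext
    show swapArc (v i, v (finRotate 4 i)) = (v i, v (finRotate 4 i))
    unfold swapArc
    rw [if_neg]
    exact key2 i
  refine ⟨v, harc, hv, ?_⟩
  apply Set.Subset.antisymm
  · rintro _ ⟨_, ⟨i, rfl⟩, rfl⟩
    exact ⟨i, (hsw i).symm⟩
  · rintro _ ⟨i, rfl⟩
    exact ⟨_, ⟨i, rfl⟩, hsw i⟩

theorem reach_up {A : Fin n → Fin n → Prop} (hA : ∀ i j : Fin n, j.val = i.val + 1 → A i j) :
    ∀ (d : ℕ) (i j : Fin n), j.val = i.val + d → Relation.ReflTransGen A i j := by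
  intro d
  induction d with
  | zero =>
    intro i j h
    have : i = j := Fin.ext (by omega)
    rw [this]
  | succ d ih =>
    intro i j h
    have hlt : i.val + d < n := by omega
    exact (ih i ⟨i.val + d, hlt⟩ rfl).tail (hA _ _ (by simp only; omega))

theorem strong_of {A : Fin n → Fin n → Prop} (hn : 5 ≤ n)
    (hA : ∀ i j : Fin n, j.val = i.val + 1 → A i j)
    (h1 : A ⟨n - 1, by omega⟩ ⟨2, by omega⟩) (h2 : A ⟨2, by omega⟩ ⟨0, by omega⟩) :
    ∀ u v, Relation.ReflTransGen A u v := by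
  intro u v
  have s1 := reach_up hA (n - 1 - u.val) u ⟨n - 1, by omega⟩ (by simp only; omega)
  have s2 := reach_up hA v.val ⟨0, by omega⟩ v (by simp only; omega)
  exact ((s1.tail h1).tail h2).trans s2

theorem strong₁ (hn : 5 ≤ n) : (T₁ n).Strong := by
  apply strong_of hn
  · intro i j h
    exact Or.inl h
  · right
    simp only
    omega
  · right
    simp

theorem strong₂ (hn : 5 ≤ n) : (T₂ n).Strong := by
  apply strong_of hn
  · intro i j h
    left
    exact ⟨Or.inl h, by omega⟩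
  · left
    refine ⟨Or.inr ?_, ?_⟩
    · simp only
      omega
    · rintro ⟨_, h⟩
      simp at h
  · left
    refine ⟨Or.inr ?_, ?_⟩ <;> simp

/-- only vertex `1` of `T₂` has out-degree one -/
theorem eq_one (hn : 5 ≤ n) (u w : Fin n) (h : ∀ v, (T₂ n).arc u v → v = w) : u.val = 1 := by
  by_contra hu
  have aux : ∀ a b : Fin n, a.val ≠ b.val → (T₂ n).arc u a → (T₂ n).arc u b → False := by
    intro a b hab h1 h2
    exact hab (by rw [h a h1, h b h2])
  rcases Nat.lt_or_ge u.val 1 with h1 | h1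
  · refine aux ⟨1, by omega⟩ ⟨4, by omega⟩ (by simp) ?_ ?_
    · simp only [T₂]; omega
    · right
      exact ⟨by omega, rfl⟩
  rcases Nat.lt_or_ge u.val 3 with h2 | h2
  · refine aux ⟨3, by omega⟩ ⟨0, by omega⟩ (by simp) ?_ ?_
    · simp only [T₂]; omega
    · simp only [T₂]; omega
  rcases Nat.lt_or_ge u.val 4 with h3 | h3
  · refine aux ⟨0, by omega⟩ ⟨1, by omega⟩ (by simp) ?_ ?_
    · simp only [T₂]; omega
    · simp only [T₂]; omega
  rcases Nat.lt_or_ge u.val 5 with h4 | h4
  · refine aux ⟨1, by omega⟩ ⟨2, by omega⟩ (by simp) ?_ ?_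
    · simp only [T₂]; omega
    · simp only [T₂]; omega
  · refine aux ⟨0, by omega⟩ ⟨1, by omega⟩ (by simp) ?_ ?_
    · simp only [T₂]; omega
    · simp only [T₂]; omega

theorem not_iso_aux (hn : 5 ≤ n) (T : Tournament (Fin n)) (a b a' b' : Fin n) (hab : a ≠ b)
    (ha : ∀ v, T.arc a v → v = a') (hb : ∀ v, T.arc b v → v = b') : ¬ Isomorphic (T₂ n) T := by
  rintro ⟨e, he⟩
  have h1 : (e.symm a).val = 1 := by
    apply eq_one hn _ (e.symm a')
    intro v hv
    rw [he, e.apply_symm_apply] at hv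
    rw [← ha _ hv, e.symm_apply_apply]
  have h2 : (e.symm b).val = 1 := by
    apply eq_one hn _ (e.symm b')
    intro v hv
    rw [he, e.apply_symm_apply] at hv
    rw [← hb _ hv, e.symm_apply_apply]
  exact hab (e.symm.injective (Fin.ext (h1.trans h2.symm)))

theorem main (n : ℕ) (hn : 5 ≤ n) : ∃ (T₁ T₂ : Tournament (Fin n)) (φ : T₁.Arcs ≃ T₂.Arcs),
    T₁.Strong ∧ T₂.Strong ∧ MapsCircuits T₁ T₂ φ 4 ∧ ¬ Isomorphic T₂ T₁ ∧
      ¬ Isomorphic T₂ T₁.converse := by
  refine ⟨T₁ n, T₂ n, φ n, strong₁ hn, strong₂ hn, maps, ?_, ?_⟩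
  · refine not_iso_aux hn _ ⟨0, by omega⟩ ⟨1, by omega⟩ ⟨1, by omega⟩ ⟨2, by omega⟩ ?_ ?_ ?_
    · simp
    · intro v hv
      simp only [T₁] at hv
      apply Fin.ext
      simp only
      omega
    · intro v hv
      simp only [T₁] at hv
      apply Fin.ext
      simp only
      omega
  · refine not_iso_aux hn _ ⟨n - 1, by omega⟩ ⟨n - 2, by omega⟩ ⟨n - 2, by omega⟩
      ⟨n - 3, by omega⟩ ?_ ?_ ?_
    · intro h
      have := congrArg Fin.val h
      simp only at this
      omega
    · intro v hv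
      simp only [T₁, Tournament.converse] at hv
      apply Fin.ext
      simp only
      have := v.isLt
      omega
    · intro v hv
      simp only [T₁, Tournament.converse] at hv
      apply Fin.ext
      simp only
      have := v.isLt
      omega

end Q125.GM
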